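import Pool.Agent.Y741.UFin

/-!
MP_70ba79_ag, Q1: degrees of the maps from affine curves to generic pairs in projective space
(complements of generic hypersurfaces in generic complete intersections).

Let `k` be an algebraically closed field of characteristic `0`, and let `F_a`, for `a` in a finite
set `A`, be forms of degrees `d_a > 0` in `n + 1` variables over `k` whose coefficients are, for all
`a` together, algebraically independent over a field `k0` contained in `k`. Let `C` be a proper
subset of `A`. Let `V` be the complete intersection `F_c = 0`, `c ∈ C`, in projective space of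
dimension `n` (which is all of projective space for empty `C`), let `D` be the nonempty union of the
hypersurfaces `F_b = 0`, `b ∉ C`, and let `X = V ∖ D`, an affine variety. The canonical bundle of the
pair `(V, D)` is `O(∑ d_a - n - 1)`.

An exceptional line is a line contained in `V` that meets `D` in at most two points.

Suppose that `3 n + 3 ≤ 2 ∑ d_a + |C|`. For `|C| < n` this implies that `X` is of log general type.
Then there is a constant `B`, which depends only on `n`, the degrees and `C`, such that:

(1) for every morphism `f` from a smooth affine curve (with smooth completion of genus `g`, and with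
    `s` points removed) to `X`, `deg f ≤ B max(2 g - 2 + s, 0)`, or the image of `f` is in the union
    of the exceptional lines (more precisely: the generic point of the curve is mapped to an
    exceptional line over the algebraic closure of its function field);
(2) if `2 n + 1 ≤ ∑ d_a + |C|`, then `deg f ≤ B max(2 g - 2 + s, 0)` for all such `f`;
(3) every closed subvariety `Y` of `X` of positive dimension `w ≥ 2 n + 2 - (∑ d_a + |C|)` is of log
    general type, and contains a proper closed subset `G = 0` such that
    `deg f ≤ B max(2 g - 2 + s, 0)` for all `f` with image not in `G = 0`. If `|C| < n`, this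
    includes `Y = X`. If `2 n + 1 ≤ ∑ d_a + |C|`, it includes all `Y` of positive dimension.

Here `deg f` is the degree of the pullback of `O(1)` to the completion of the curve, which is the
product of the degree of the closure of the image and of the degree of the map to it (and `0` for
constant `f`).

In (3), `K` is the function field of the subvariety, or a finite extension of it, and `y` is its
generic point, in homogeneous coordinates. A prime divisor `Q` over the closure of the subvariety
has its centre in `D` if `d_b min_i ord_Q (y_i) < ord_Q (F_b (y))` for some `b` not in `C`;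
`pord Q y` is the minimum of the orders `ord_Q (y_i)`.
-/

set_option autoImplicit false

namespace Pool.Agent.Results.MP_70ba79_ag.GenericPairDegrees

open MvPolynomial FF Pool.Agent.W603.LV Pool.Agent.W603.PV Pool.Agent.W602.GT
  Pool.Agent.TH145.MG LinearAlgebra.Projectivization

/-- The vector `f` of elements of the function field `L` is the vector of homogeneous coordinates of
a morphism to the complement of the hypersurfaces `F b = 0`, `b ∉ C`, in `F c = 0`, `c ∈ C`, from the
smooth projective curve with function field `L`, without the points in the finite set `S`. -/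
def MapTo {k A : Type} [Field k] {n : ℕ} (F : A → MvPolynomial (Fin (n + 1)) k) (d : A → ℕ)
    (C : Finset A) {L : Type} [Field L] [Algebra k L] (S : Finset (Place k L))
    (f : Fin (n + 1) → L) : Prop :=
  f ≠ 0 ∧ (∀ c ∈ C, aeval f (F c) = 0) ∧ ∀ b, b ∉ C → aeval f (F b) ≠ 0 ∧
    ∀ P ∉ S, P.ord (aeval f (F b)) = d b * pord P f

/-- A line, given by a vector space of dimension two, that is contained in `F c = 0` for all `c` in
`C`. -/
def IsLine {K A : Type} [Field K] {n : ℕ} (F : A → MvPolynomial (Fin (n + 1)) K) (C : Finset A)
    (W : Submodule K (Fin (n + 1) → K)) : Prop :=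
  Module.finrank K W = 2 ∧ ∀ c ∈ C, ∀ v ∈ W, eval v (F c) = 0

/-- The points of the line where `F b = 0` for some `b ∉ C`. -/
def Boundary {K A : Type} [Field K] {n : ℕ} (F : A → MvPolynomial (Fin (n + 1)) K) (C : Finset A)
    (W : Submodule K (Fin (n + 1) → K)) : Set (ℙ K (Fin (n + 1) → K)) :=
  {p | p.rep ∈ W ∧ ∃ b, b ∉ C ∧ eval p.rep (F b) = 0}

/-- A line contained in `F c = 0` for all `c` in `C` that meets the union of the hypersurfaces
`F b = 0`, `b ∉ C`, in at most two points. -/
def Exceptional {K A : Type} [Field K] {n : ℕ} (F : A → MvPolynomial (Fin (n + 1)) K)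
    (C : Finset A) (W : Submodule K (Fin (n + 1) → K)) : Prop :=
  IsLine F C W ∧ (Boundary F C W).encard ≤ 2

theorem result {n : ℕ} (hn : 1 ≤ n) {A : Type} [Fintype A] [DecidableEq A] {d : A → ℕ}
    (hd0 : ∀ a, 0 < d a)
    -- the equations are `F c = 0` for `c ∈ C`, and the other forms give the boundary
    (C : Finset A) (hC : C ≠ Finset.univ) (hd : 3 * n + 3 ≤ 2 * ∑ a, d a + C.card) :
    ∃ B : ℕ, ∀ (k0 k : Type) [Field k0] [Field k] [Algebra k0 k] [IsAlgClosed k] [CharZero k]
      -- the forms; their coefficients are algebraically independent over `k0`
      (F : A → MvPolynomial (Fin (n + 1)) k), (∀ a, (F a).IsHomogeneous (d a)) →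
      (AlgebraicIndependent k0 fun p : (a : A) × {I : Fin (n + 1) →₀ ℕ // I.degree = d a} =>
        (F p.1).coeff p.2.1) →
      -- (1) the degrees of the maps that are not to the exceptional lines
      (∀ (L : Type) [Field L] [Algebra k L] [IsFF k L] (S : Finset (Place k L))
        (f : Fin (n + 1) → L), MapTo F d C S f → pht k f ≤ B * max (canDeg k L + S.card) 0 ∨
          ∃ W, Exceptional (fun a => map (algebraMap k (AlgebraicClosure L)) (F a)) C W ∧
            (fun j => algebraMap L (AlgebraicClosure L) (f j)) ∈ W) ∧
      -- (2) there are no exceptional lines in large degree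
      (2 * n + 1 ≤ ∑ a, d a + C.card → ∀ (L : Type) [Field L] [Algebra k L] [IsFF k L]
        (S : Finset (Place k L)) (f : Fin (n + 1) → L), MapTo F d C S f →
          pht k f ≤ B * max (canDeg k L + S.card) 0) ∧
      -- (3) closed subvarieties of large dimension: log general type, and degrees of maps
      ∀ (K : Type) [Field K] [Algebra k K] (w : ℕ) (y : Fin (n + 1) → K), 0 < w →
        2 * n + 2 ≤ ∑ a, d a + C.card + w → Algebra.trdeg k K = w → y ≠ 0 →
        Algebra.IsAlgebraic (coords k y) K → (∀ c ∈ C, aeval y (F c) = 0) →
        (∀ b, b ∉ C → aeval y (F b) ≠ 0) →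
        (LogGeneralType k K w fun Q : Place k K =>
          ∃ b, b ∉ C ∧ d b * pord Q y < Q.ord (aeval y (F b))) ∧
        ∃ (G : MvPolynomial (Fin (n + 1)) k) (e : ℕ), G.IsHomogeneous e ∧ aeval y G ≠ 0 ∧
          ∀ (L : Type) [Field L] [Algebra k L] [IsFF k L] (S : Finset (Place k L))
            (f : Fin (n + 1) → L), MapTo F d C S f → aeval f G ≠ 0 →
              pht k f ≤ B * max (canDeg k L + S.card) 0 :=
  Pool.Agent.Y741.generic_degrees hn hd0 C hC hd

end Pool.Agent.Results.MP_70ba79_ag.GenericPairDegrees
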