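import Pool.Agent.Y192.FA.GAll

/-!
MP_70ba79_ag, Q1: log general type and degree bounds for curves are equivalent for the covers
`w j ^ e j = F j (t 0 ^ m, …, t n ^ m)` of arbitrary projective varieties, `m` large, without the
hypersurfaces `G (t 0 ^ m, …, t n ^ m) = 0`.

`MapTo X m t w S u v`: the vectors `u`, `v` of elements of a function field `M` of one variable are
homogeneous coordinates of a map to `X` from the smooth projective curve with function field `M`,
which maps the points outside of the finite set `S` to `X°`. Its degree is `pht ℂ u`, and
`canDeg ℂ M` is `2 g - 2`. `LinB`, `EulB`, `EachB`, `GmB` are degree bounds for such maps, outside of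
a proper closed subset of `X`: linear in `2 g - 2 + |S|`; by a function of `2 g - 2 + |S|`; for each
curve; and for the multiplicative group.
-/

set_option autoImplicit false

namespace Pool.Agent.Results.MP_70ba79_ag.KummerDegrees

open Pool.Agent.W602.GT Pool.Agent.Y192.KC Pool.Agent.Y192.FA

/-- Let `Z` be any irreducible projective variety in `P^n`, not in a coordinate hyperplane, with the
homogeneous prime ideal `I`, let `F 1, …, F r` and `G` be forms which do not vanish on `Z`, and let
`e 1, …, e r` be positive numbers. There is a number `m0` with the following property. Let `m ≥ m0`
be divisible by the `e j`, and let `X` be any irreducible component, of dimension `d > 0`, of the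
projective variety with the equations `f (t 0 ^ m, …, t n ^ m) = 0`, `f ∈ I`, and
`w j ^ e j = F j (t 0 ^ m, …, t n ^ m)` in the weighted projective space with the homogeneous
coordinates `t i` and `w j`; `L` is the function field of `X`, and `t`, `w` are the coordinates of its
generic point. Let `X°` be the part of `X` where `G (t 0 ^ m, …, t n ^ m)` does not vanish. Then the
following are equivalent:
(1) `X°` is of log general type,
(2) outside of a proper closed subset, the degrees of the maps from smooth curves of genus `g` with
`s` points at infinity to `X°` are at most `A * max (2 g - 2 + s) 0`,
(3) outside of a proper closed subset, they are bounded by a function of `2 g - 2 + s`,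
(4) outside of a proper closed subset, they are bounded for each curve,
(5) outside of a proper closed subset, they are bounded for the multiplicative group,
(6) there is no one-parameter group of diagonal matrices which acts nontrivially on `P^n` and
preserves `Z` and the essential parts of the branch divisors `F j = 0` and of `G = 0` on `Z`. -/
theorem result {n r : ℕ} (X : ZCov n r) :
    ∃ m0 : ℕ, ∀ m, m0 ≤ m → (∀ j, X.e j ∣ m) →
      ∀ (L : Type) [Field L] [Algebra ℂ L] (t : Fin (n + 1) → L) (w : Fin r → L),
      ZField X m L t w → ∀ d : ℕ, 1 ≤ d → Algebra.trdeg ℂ L = d →
      [LogGeneralType ℂ L d (OffG X.toCov m t), LinB X.toCov m t w, EulB X.toCov m t w,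
        EachB X.toCov m t w, GmB X.toCov m t w, ¬ ZRed X].TFAE :=
  mainG_all X

end Pool.Agent.Results.MP_70ba79_ag.KummerDegrees
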