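import Pool.Agent.Y190.AH.Tf

/-!
MP_70ba79_ag, Q1: the degrees of the maps from affine curves to the closed subvarieties of the
complements of coordinate hyperplanes in the varieties of the vectors whose `m`-th powers, for
instance whose squares, are the values of a polynomial of low degree at given constants.

`PowVal a n m` is the (cone over the) smooth complete intersection of dimension `n` in `P^N` of the
vectors `x` for which there is a polynomial `H` of degree at most `n` with `x i ^ m = H (a i)` for
all `i`. `ConeU U F` is the cone over the quasi-projective variety `X = {F = 0, x_j ≠ 0 for j in U}`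
(for nonempty `U` it is affine), and `GmLine U F p q` means that `p`, `q` span a line which meets the
complement of `X` at most in the points `p` and `q`.

`MapX U F S f`: the vector `f` of elements of a function field `L` of one variable over `k` defines
a morphism to `X` from the smooth projective curve with function field `L`, without the finite set
`S` of points. Its degree is `pht k f`, and `canDeg k L` is `2 g - 2`. `LinB`, `EulB`, `EachB`, `GmB`
are degree bounds for such maps, outside of a proper closed subset, for the closed subvariety of the
complement of the hyperplanes with the generic point `y`: linear in `2 g - 2 + |S|`; by a function of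
`2 g - 2 + |S|`; for each affine curve; and for the multiplicative group. `OffU U y` are the places
with centre on the hyperplanes `x_j = 0`, `j` in `U`. `Ruled k K`: the varieties with function field
`K` are birational to the product of a variety and the projective line.
-/

set_option autoImplicit false

namespace Pool.Agent.Results.MP_70ba79_ag.PolynomialValueDegrees

open FF Pool.Agent.W603.LV Pool.Agent.W603.PV Pool.Agent.W602.GT Pool.Agent.Y190.BV
  Pool.Agent.Y190.QP Pool.Agent.Y190.AH

theorem result {k : Type} [Field k] [IsAlgClosed k] [CharZero k] {N n m : ℕ} (hm : 2 ≤ m)
    (hnm : n < 2 * m) (hN : 4 * n < N + 1) (a : Fin (N + 1) → k) (ha : Function.Injective a)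
    (U : Set (Fin (N + 1))) :
    -- all closed subsets: the exceptional set is the closure of the union of the lines which meet
    -- the boundary in at most two points, and it is empty if `U` has three elements
    (∀ (ι : Type) (F : ι → MvPolynomial (Fin (N + 1)) k), (∀ e, IsForm (F e)) →
      ConeU U F ⊆ PowVal a n m → ∃ B : ℕ, ∀ (L : Type) [Field L] [Algebra k L] [IsFF k L]
        (S : Finset (Place k L)) (f : Fin (N + 1) → L), MapX U F S f →
          pht k f ≤ B * max (canDeg k L + S.card) 0 ∨
          (¬ 3 ≤ U.ncard ∧ ∀ G : MvPolynomial (Fin (N + 1)) k,
            (∀ p q, GmLine U F p q → ∀ c c' : k, c ≠ 0 → c' ≠ 0 → val (c • p + c' • q) G = 0) →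
              val f G = 0)) ∧
    -- closed subvarieties, with function field `K`, dimension `w` and generic point `y`: the bounds
    -- outside of a proper closed subset, and log general type
    (4 * n + (n + 1) ^ 2 < 2 * (N + 1) → ∀ (K : Type) [Field K] [Algebra k K] (w : ℕ)
      (y : Fin (N + 1) → K) (H : Polynomial K), 1 ≤ w → y ≠ 0 → (∀ j ∈ U, y j ≠ 0) →
      coords k y = ⊤ → Algebra.trdeg k K = w → H.natDegree ≤ n →
      (∀ i, y i ^ m = H.eval (algebraMap k K (a i))) →
        [LogGeneralType k K w (OffU U y), LinB k U y, EulB k U y, EachB k U y, GmB k U y,
          3 ≤ U.ncard ∨ ¬ Ruled k K].TFAE) :=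
  ⟨fun _ _ hF hV => bound_closed hm hnm hN ha U hF hV,
    fun hN' _ _ _ _ _ _ hw hy0 hyU hgen hdim hH hy =>
      log_tfae hm hnm hN' ha U hw hy0 hyU hgen hdim hH hy⟩

end Pool.Agent.Results.MP_70ba79_ag.PolynomialValueDegrees
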