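import Mathlib
import Pool.Agent.Y731.CC.Kod

set_option autoImplicit false

/-!
# MP_70ba79_ag: the Lang-Vojta conjecture for affine curves in all varieties of log general type,
# for the curves whose coordinates are sums of a bounded number of units

`k` is an algebraically closed field of characteristic zero, `X` a smooth projective variety of
dimension `N` over `k` in `ℙ^(N + s)` with the equations `G j = 0` (any number of them),
`D = D_1 + ⋯ + D_q` a divisor of `X` with strict normal crossings, `D_i` the subvariety of `X` with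
the equations `E i j = 0`, `j < w`, `E i j` of degree `d i j` (not necessarily a hypersurface
section).

A curve is given by its function field `L`; a map `f` from the complete smooth curve to `X` is a
point `x` of `X` over `L` (not proportional to a point over `k` if the map is not constant). The
degree of `f` (the degree of `f ^* H`, `H` the hyperplane class) is `height k x`, the degree of
`f ^* D` is `divisorHeight k E d x`, the degree of `f ^* K_X` is `canonicalHeight k x A`, and
`2 g = twiceGenus k L`.

Every coordinate of `x` is written as a sum of `m` elements `t c j` of `L`, the number of places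
(points of the complete curve) at which not all nonzero `t c j` have the same order occurs in the
estimates: if the affine curve `C` is the complement of a finite set `S` of places and all these
places are in `S` then the `t c j` are units of `C`, up to a common factor.

First part: for every `ε > 0` the inequality
`deg f ^* (K_X + D) ≤ #f ^(-1) (D) + ε deg f + C (2 g + n(t))` holds outside a proper closed subset.
Second part: if `X - D` is of log general type then the conjecture holds, with a linear function
`β`, for the maps `f : C → X - D` whose coordinates are sums of `m` units of `C`.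
-/

namespace Pool.Agent.Results.MP_70ba79_ag.SparseCurves

open MvPolynomial FF Pool.Agent.W603.LV

section defs

variable {k L : Type} [Field k] [Field L] [Algebra k L]

/-- the minimum of the orders of the nonzero entries of `x` at the place `P` -/
noncomputable def minOrd {ι : Type} (P : Place k L) (x : ι → L) : ℤ :=
  ⨅ c : {c // x c ≠ 0}, P.ord (x c.1)

variable (k) in
/-- The degree of the map with the homogeneous coordinates `x`: minus the sum over all places of
the minimum of the orders of the coordinates. -/
noncomputable def height {ι : Type} (x : ι → L) : ℤ := -∑ᶠ P : Place k L, minOrd P x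

/-- `x` is a point of the variety `X`. -/
def OnX {n g : ℕ} (G : Fin g → MvPolynomial (Fin n) k) (x : Fin n → L) : Prop :=
  ∀ j, aeval x (G j) = 0

/-- The local intersection number at `P` with the subvariety with the equations `E j = 0`, `E j` of
degree `d j`: the minimum of the orders of `E j (x) / x_c ^ d j`, `x_c` a coordinate of minimal
order. -/
noncomputable def localHeight {n w : ℕ} (E : Fin w → MvPolynomial (Fin n) k) (d : Fin w → ℕ)
    (P : Place k L) (x : Fin n → L) : ℤ :=
  ⨅ j : {j // aeval x (E j) ≠ 0}, (P.ord (aeval x (E j.1)) - d j.1 * minOrd P x)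

/-- The degree of `f ^* D` for `D = D_1 + ⋯ + D_q`, `D_i` with the equations `E i j = 0`: the sum of
all local intersection numbers. -/
noncomputable def divisorHeight {n q w : ℕ} (E : Fin q → Fin w → MvPolynomial (Fin n) k)
    (d : Fin q → Fin w → ℕ) (x : Fin n → L) : ℤ :=
  ∑ i, ∑ᶠ P : Place k L, localHeight (E i) (d i) P x

/-- the number of points of `f ^(-1) (D)` -/
noncomputable def preimages {n q w : ℕ} (E : Fin q → Fin w → MvPolynomial (Fin n) k)
    (d : Fin q → Fin w → ℕ) (x : Fin n → L) : ℕ :=
  {P : Place k L | ∃ i, 0 < localHeight (E i) (d i) P x}.ncard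

/-- The columns of `A` are a basis of the tangent space of the affine cone over `X` at `x` (the
vectors orthogonal to all gradients of equations), `X` being smooth of dimension `N` at `x`. -/
def IsTangentBasis {n N g : ℕ} (G : Fin g → MvPolynomial (Fin n) k) (x : Fin n → L)
    (A : Matrix (Fin n) (Fin (N + 1)) L) : Prop :=
  LinearIndependent L (fun c : Fin (N + 1) => fun j : Fin n => A j c) ∧
    ∀ j c, ∑ a, aeval x (pderiv a (G j)) * A a c = 0

variable (k) in
/-- The degree of `f ^* K` for the canonical class `K` of `X`. The Gauss map `γ` sends a point of `X`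
to its embedded tangent space, `γ ^* O(1) = K + (N + 1) H` for the hyperplane class `H`: the degree
of `γ ∘ f` (given by the Pluecker coordinates, the maximal minors of `A`) minus `(N + 1) deg f`. -/
noncomputable def canonicalHeight {n N : ℕ} (x : Fin n → L) (A : Matrix (Fin n) (Fin (N + 1)) L) :
    ℤ :=
  height k (fun J : Fin (N + 1) → Fin n => (A.submatrix J id).det) - (N + 1) * height k x

variable (k) in
/-- The places of `L` at which not all nonzero `t c j` have the same order. -/
def unequal {n m : ℕ} (t : Fin n → Fin m → L) : Set (Place k L) :=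
  {P | ∃ c j c' j', t c j ≠ 0 ∧ t c' j' ≠ 0 ∧ P.ord (t c j) ≠ P.ord (t c' j')}

variable (k) in
/-- The map `x` is not constant. -/
def NonConstant {n : ℕ} (x : Fin n → L) : Prop :=
  ¬ ∃ (z : Fin n → k) (a : L), ∀ c, x c = algebraMap k L (z c) * a

variable (k L) in
/-- `2 g`; `canDeg k L = 2 g - 2` is the degree of a canonical divisor. -/
noncomputable def twiceGenus : ℤ := canDeg k L + 2

end defs

section pairs

variable {k : Type} [Field k]

/-- The dimension of `X` is at least `N`: some `N + 1` coordinates are algebraically independent on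
the cone over `X`. -/
def DimGE {n g : ℕ} (N : ℕ) (G : Fin g → MvPolynomial (Fin n) k) : Prop :=
  ∃ J : Fin (N + 1) → Fin n, ∀ P : MvPolynomial (Fin (N + 1)) k,
    (∀ z : Fin n → k, OnX G z → aeval (fun i => z (J i)) P = 0) → P = 0

/-- `X` is irreducible. -/
def Irred {n g : ℕ} (G : Fin g → MvPolynomial (Fin n) k) : Prop :=
  ∀ P Q : MvPolynomial (Fin n) k, (∀ z : Fin n → k, OnX G z → aeval z P * aeval z Q = 0) →
    (∀ z : Fin n → k, OnX G z → aeval z P = 0) ∨ ∀ z : Fin n → k, OnX G z → aeval z Q = 0

/-- `X` is smooth of codimension `s` and `D` has strict normal crossings on `X`: at each point `z` of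
`X`, for suitable `s` equations of `X` and one equation of each component of `D` through `z` all
gradients at `z` are linearly independent. -/
def SmoothPair {n g q w : ℕ} (s : ℕ) (G : Fin g → MvPolynomial (Fin n) k)
    (E : Fin q → Fin w → MvPolynomial (Fin n) k) : Prop :=
  ∀ z : Fin n → k, z ≠ 0 → OnX G z →
    ∃ (T : Fin s → Fin g) (J : Fin q → Fin w), LinearIndependent k
      (Sum.elim
        (fun a : Fin s => fun c : Fin n => aeval z (pderiv c (G (T a))))
        (fun i : {i : Fin q // ∀ j, aeval z (E i j) = 0} => fun c : Fin n =>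
          aeval z (pderiv c (E i.1 (J i.1)))))

/-- `X - D` is of log general type: `K + D` is big, that is (Kodaira's lemma), `n (K + D) - H` is
effective for some `n > 0`. Let `γ_J` be a Pluecker coordinate of the Gauss map, a section of
`K + (N + 1) H`. Every rational section of `n K - H` is of the form `(U / V) γ_J ^ n` with forms `U`,
`V` with `deg V = deg U + n (N + 1) + 1`. There is one, not zero, with no poles besides `n D`: for all
maps `x` from curves to `X`, off `D` and the zeros of `U` and `V` (a closed subset which contains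
the zeros of `γ_J`), the order of the section at each place is at least `-n` times the order
of `D`. -/
def LogGeneralType {n' g q w : ℕ} (N : ℕ) (G : Fin g → MvPolynomial (Fin n') k)
    (E : Fin q → Fin w → MvPolynomial (Fin n') k) (d : Fin q → Fin w → ℕ) : Prop :=
  ∃ (n a b : ℕ) (J : Fin (N + 1) → Fin n') (U V : MvPolynomial (Fin n') k),
    0 < n ∧ U.IsHomogeneous a ∧ V.IsHomogeneous b ∧ b = a + n * (N + 1) + 1 ∧
    (∃ z : Fin n' → k, OnX G z ∧ aeval z U ≠ 0) ∧ (∃ z : Fin n' → k, OnX G z ∧ aeval z V ≠ 0) ∧
    ∀ (L : Type) [Field L] [Algebra k L] [IsFF k L] (x : Fin n' → L), x ≠ 0 → OnX G x →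
      (∀ i, ∃ j, aeval x (E i j) ≠ 0) → aeval x U ≠ 0 → aeval x V ≠ 0 →
      ∀ A : Matrix (Fin n') (Fin (N + 1)) L, IsTangentBasis G x A →
        (A.submatrix J id).det ≠ 0 ∧ ∀ P : Place k L,
          0 ≤ (P.ord (aeval x U) - a * minOrd P x) - (P.ord (aeval x V) - b * minOrd P x) +
            n * (P.ord (A.submatrix J id).det -
              minOrd P (fun J' : Fin (N + 1) → Fin n' => (A.submatrix J' id).det)) +
            n * ∑ i, localHeight (E i) (d i) P x

end pairs

/-- **Main theorem.** Let `X` be a smooth projective variety of dimension `N` over the algebraically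
closed field `k` of characteristic zero, `D` a divisor of `X` with strict normal crossings, and `m` a
number.

First part. For every `ε > 0` there are a form `Φ` that does not vanish on `X` and a constant `C`
such that for all curves, all nonconstant maps `f` to `X`, not into `D` or `Φ = 0`, and all
representations of its coordinates as sums of `m` terms `t c j`,
`deg f ^* (K_X + D) ≤ #f ^(-1) (D) + ε deg f + C (2 g + n(t))`, where `n(t)` is the number of the
places at which not all nonzero `t c j` have the same order.

Second part. Let `X` be irreducible and `X - D` of log general type. There are a form `Φ` that does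
not vanish on `X` and a constant `B` such that for all affine curves `C` (the complement of the
finite set `S` of places of `L`) and all nonconstant maps `f` from `C` to `X - D`, not into `Φ = 0`,
whose coordinates are sums of `m` units of `C` (up to a common factor) or zeros,
`deg f ≤ B (χ(C) + 2)`, `χ(C) = 2 g - 2 + #S`. -/
theorem result {k : Type} [Field k] [IsAlgClosed k] [CharZero k]
    (N s g q w m : ℕ) (G : Fin g → MvPolynomial (Fin (N + 1 + s)) k) (e : Fin g → ℕ)
    (hG : ∀ j, (G j).IsHomogeneous (e j))
    (E : Fin q → Fin w → MvPolynomial (Fin (N + 1 + s)) k) (d : Fin q → Fin w → ℕ)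
    (hE : ∀ i j, (E i j).IsHomogeneous (d i j)) (hdim : DimGE N G) (hsm : SmoothPair s G E) :
    (∀ ε : ℝ, 0 < ε → ∃ (Φ : MvPolynomial (Fin (N + 1 + s)) k) (n : ℕ) (C : ℝ),
      Φ.IsHomogeneous n ∧ (∃ z : Fin (N + 1 + s) → k, OnX G z ∧ aeval z Φ ≠ 0) ∧
      ∀ (L : Type) [Field L] [Algebra k L] [IsFF k L] (x : Fin (N + 1 + s) → L)
        (t : Fin (N + 1 + s) → Fin m → L), OnX G x → NonConstant k x →
        (∀ i, ∃ j, aeval x (E i j) ≠ 0) → aeval x Φ ≠ 0 → (∀ c, x c = ∑ j, t c j) →
        ∀ A : Matrix (Fin (N + 1 + s)) (Fin (N + 1)) L, IsTangentBasis G x A →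
          ((canonicalHeight k x A + divisorHeight E d x : ℤ) : ℝ) ≤
            preimages E d x + ε * height k x + C * (twiceGenus k L + (unequal k t).ncard)) ∧
    (Irred G → LogGeneralType N G E d → ∃ (Φ : MvPolynomial (Fin (N + 1 + s)) k) (n : ℕ) (B : ℝ),
      Φ.IsHomogeneous n ∧ (∃ z : Fin (N + 1 + s) → k, OnX G z ∧ aeval z Φ ≠ 0) ∧
      ∀ (L : Type) [Field L] [Algebra k L] [IsFF k L] (S : Finset (Place k L))
        (x : Fin (N + 1 + s) → L) (t : Fin (N + 1 + s) → Fin m → L), OnX G x →
        NonConstant k x → (∀ i, ∃ j, aeval x (E i j) ≠ 0) →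
        (∀ P : Place k L, P ∉ S → ∀ i, localHeight (E i) (d i) P x ≤ 0) → aeval x Φ ≠ 0 →
        (∀ c, x c = ∑ j, t c j) → (∀ P ∈ unequal k t, P ∈ S) →
          (height k x : ℝ) ≤ B * ((canDeg k L + S.card) + 2)) := by
  classical
  obtain ⟨J, hJ⟩ := hdim
  -- forms in the coordinates `J`
  have hnv : ∀ Φ : MvPolynomial (Fin (N + 1)) k, Φ ≠ 0 → ∃ z : Fin (N + 1 + s) → k, OnX G z ∧
      aeval z (rename J Φ) ≠ 0 := by
    intro Φ hΦ
    by_contra hcon
    push Not at hcon
    apply hΦ
    apply hJ
    intro z hz
    have := hcon z hz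
    rw [aeval_rename] at this
    exact this
  -- nonconstant points
  have hnc : ∀ {L : Type} [Field L] [Algebra k L] [IsFF k L] (x : Fin (N + 1 + s) → L),
      NonConstant k x → (∃ c, x c ≠ 0) ∧ ∃ c c', Transcendental k (x c / x c') := by
    intro L _ _ _ x hx
    have h0 : ∃ c, x c ≠ 0 := by
      by_contra hno
      push Not at hno
      exact hx ⟨fun _ => 0, 0, fun c => by rw [hno, map_zero, zero_mul]⟩
    refine ⟨h0, ?_⟩
    obtain ⟨c', hc'⟩ := h0
    by_contra hno
    push Not at hno
    have h1 : ∀ c, ∃ a : k, algebraMap k L a = x c / x c' := by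
      intro c
      by_contra h2
      push Not at h2
      exact hno c c' (Pool.Agent.W619.TW.transcendental_of_not_const h2)
    choose a ha using h1
    exact hx ⟨a, x c', fun c => by rw [ha, div_mul_cancel₀ _ hc']⟩
  constructor
  · intro ε hε
    obtain ⟨Φ, C, ⟨n, hn⟩, hΦ0, hmain⟩ := Pool.Agent.Y731.CC.ccMain (k := k) m G e hG E d hE
      hsm J ε hε
    refine ⟨rename J Φ, n, 2 * C, hn.rename_isHomogeneous, hnv Φ hΦ0, ?_⟩
    intro L _ _ _ x t hX hx hEx hΦ hxt A hA
    rw [aeval_rename] at hΦ
    have h1 := (hmain L x t hX hEx hxt (hnc x hx).2 hΦ).2 A hA.1 hA.2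
    refine le_trans h1 ?_
    have h2 : (0 : ℝ) ≤ (twiceGenus k L : ℤ) := by
      exact_mod_cast Pool.Agent.Y731.CC.canDeg_ge (k := k) (K := L)
    have h3 : ((twiceGenus k L : ℤ) : ℝ) = canDeg k L + 2 := by
      unfold twiceGenus
      push_cast
      rfl
    have h4 : (C : ℝ) * (canDeg k L + 2 * ((unequal k t).ncard : ℝ)) ≤
        2 * C * (twiceGenus k L + (unequal k t).ncard) := by
      have h5 : (canDeg k L + 2 * ((unequal k t).ncard : ℝ)) ≤
          2 * (twiceGenus k L + (unequal k t).ncard) := by
        rw [h3] at h2 ⊢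
        linarith
      have h6 := mul_le_mul_of_nonneg_left h5 (Nat.cast_nonneg (α := ℝ) C)
      linarith
    have h5 := add_le_add_left h4 ((preimages E d x : ℝ) + ε * height k x)
    rw [add_comm _ (_ * _)] at h5
    exact le_trans (le_of_eq (by rfl)) (le_trans (add_le_add le_rfl h4) le_rfl)
  · intro hirr hlgt
    obtain ⟨n, a, b, J', U, V, hn0, hU, hV, hab, hUX, hVX, hsec⟩ := hlgt
    obtain ⟨Φ, C, ⟨n', hn'⟩, hΦ0, hmain⟩ := Pool.Agent.Y731.CC.ccMain (k := k) m G e hG E d hE
      hsm J (1 / (2 * n)) (by positivity)
    have hprod : ∀ P Q : MvPolynomial (Fin (N + 1 + s)) k,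
        (∃ z : Fin (N + 1 + s) → k, OnX G z ∧ aeval z P ≠ 0) →
        (∃ z : Fin (N + 1 + s) → k, OnX G z ∧ aeval z Q ≠ 0) →
        ∃ z : Fin (N + 1 + s) → k, OnX G z ∧ aeval z (P * Q) ≠ 0 := by
      intro P Q hP hQ
      by_contra hcon
      push Not at hcon
      rcases hirr P Q (fun z hz => by rw [← map_mul]; exact hcon z hz) with h | h
      · obtain ⟨z, hz, hz'⟩ := hP
        exact hz' (h z hz)
      · obtain ⟨z, hz, hz'⟩ := hQ
        exact hz' (h z hz)
    refine ⟨rename J Φ * (U * V), n' + (a + b), 2 * n * (1 + 2 * C),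
      hn'.rename_isHomogeneous.mul (hU.mul hV), hprod _ _ (hnv Φ hΦ0) (hprod _ _ hUX hVX), ?_⟩
    intro L _ _ _ S x t hX hx hEx hSx hΦ hxt hS
    rw [map_mul, map_mul, aeval_rename] at hΦ
    have hΦ1 := left_ne_zero_of_mul hΦ
    have hU1 := left_ne_zero_of_mul (right_ne_zero_of_mul hΦ)
    have hV1 := right_ne_zero_of_mul (right_ne_zero_of_mul hΦ)
    obtain ⟨hx0, hxt'⟩ := hnc x hx
    obtain ⟨⟨A, hA, hA0⟩, hall⟩ := hmain L x t hX hEx hxt hxt' hΦ1
    have h1 := hall A hA hA0
    obtain ⟨hdet, hord⟩ := hsec L x (fun h => by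
      obtain ⟨c, hc⟩ := hx0
      exact hc (by rw [h]; rfl)) hX hEx hU1 hV1 A ⟨hA, hA0⟩
    have h2 := Pool.Agent.Y731.CC.kod E d x hx0 hEx
      (fun J : Fin (N + 1) → Fin (N + 1 + s) => (A.submatrix J id).det) J' hdet (aeval x U)
      (aeval x V) hU1 hV1 n a b N hab hord
    -- the places over `D`
    have h3 : ({P : Place k L | ∃ i, 0 < Pool.Agent.Y731.FG.locH (E i) (d i) P x}.ncard : ℝ) ≤
        S.card := by
      have h4 : {P : Place k L | ∃ i, 0 < Pool.Agent.Y731.FG.locH (E i) (d i) P x} ⊆
          (S : Set (Place k L)) := by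
        rintro P ⟨i, hi⟩
        by_contra hP
        exact absurd (hSx P hP i) (not_le.2 hi)
      have h5 := Set.ncard_le_ncard h4 S.finite_toSet
      rw [Set.ncard_coe_finset] at h5
      exact_mod_cast h5
    have h4 : ((Pool.Agent.Y731.FG.uneq k t).ncard : ℝ) ≤ S.card := by
      have h5 := Set.ncard_le_ncard (s := Pool.Agent.Y731.FG.uneq k t) (t := (S : Set (Place k L)))
        hS S.finite_toSet
      rw [Set.ncard_coe_finset] at h5
      exact_mod_cast h5
    have h5 : (0 : ℝ) ≤ canDeg k L + 2 := by
      exact_mod_cast Pool.Agent.Y731.CC.canDeg_ge (k := k) (K := L)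
    have h6 : (height k x : ℝ) ≤ n * ((Pool.Agent.Y731.FG.hgtP k
        (fun J : Fin (N + 1) → Fin (N + 1 + s) => (A.submatrix J id).det) -
          (N + 1) * Pool.Agent.Y731.FG.hgtP k x + ∑ i, ∑ᶠ P : Place k L,
            Pool.Agent.Y731.FG.locH (E i) (d i) P x : ℤ) : ℝ) := by
      exact_mod_cast h2
    have hn1 : (1 : ℝ) ≤ n := by exact_mod_cast hn0
    have h7 := mul_le_mul_of_nonneg_left h1 (by linarith : (0 : ℝ) ≤ n)
    have h8 : (height k x : ℝ) ≤ n * (S.card + 1 / (2 * n) * height k x +
        C * (canDeg k L + 2 * S.card)) := by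
      refine h6.trans (h7.trans ?_)
      refine mul_le_mul_of_nonneg_left ?_ (by linarith)
      have h9 : (C : ℝ) * (canDeg k L + 2 * (Pool.Agent.Y731.FG.uneq k t).ncard) ≤
          C * (canDeg k L + 2 * S.card) :=
        mul_le_mul_of_nonneg_left (by linarith) (Nat.cast_nonneg C)
      have h10 : (Pool.Agent.Y731.FG.hgtP k x : ℝ) = height k x := rfl
      rw [h10]
      linarith
    have h9 : (n : ℝ) * (1 / (2 * n) * height k x) = height k x / 2 := by
      field_simp
    have h10 : (height k x : ℝ) / 2 ≤ n * (S.card + C * (canDeg k L + 2 * S.card)) := by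
      have h11 : (n : ℝ) * (S.card + 1 / (2 * n) * height k x + C * (canDeg k L + 2 * S.card)) =
          n * (S.card + C * (canDeg k L + 2 * S.card)) + n * (1 / (2 * n) * height k x) := by ring
      rw [h11, h9] at h8
      linarith
    have h11 : (S.card : ℝ) + C * (canDeg k L + 2 * S.card) ≤
        (1 + 2 * C) * ((canDeg k L + S.card) + 2) := by
      have h12 : (0 : ℝ) ≤ C := Nat.cast_nonneg C
      have h13 : (0 : ℝ) ≤ (S.card : ℝ) := Nat.cast_nonneg _
      have h14 : (0 : ℝ) ≤ C * (canDeg k L + 2) := mul_nonneg h12 h5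
      nlinarith
    have h12 := mul_le_mul_of_nonneg_left h11 (by linarith : (0 : ℝ) ≤ n)
    linarith

end Pool.Agent.Results.MP_70ba79_ag.SparseCurves
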